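import Mathlib

/-!
# No forest of a left-right pair in `SL₂(ℕ₀)` has a rootless component

For every subfield `K` of the complex numbers and every left-right pair `(L, R)` of matrices with nonnegative
integer entries and determinant one, every connected component of the forest `F(L, R)` on
`D₀ = {x + y i ∈ K : x > 0, y > 0}` contains an orphan. So the answer to the question is: there is no
left-right pair whose forest has a rootless component.

Proof. Let `z = T (w)` with `T = M₁ ⋯ Mₙ` a product of `n` matrices from `{L, R}`, let `(c, d)` be the second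
row of `T`. Then `Im z * |c w + d|² = Im w` and `|c w + d|² ≥ 2 c d Im w`, so `2 c d Im z ≤ 1`. On the other hand
the second rows grow along the word: if some matrix of the word is not upper triangular then `c, d ≥ 1` and `c + d`
tends to infinity with the length; if all are upper triangular, then `Re w ≤ Re z - n`. So the number
of ancestors of `z` is bounded.
-/

set_option autoImplicit false

namespace Pool.Agent.Results.MP_b00f03_nt.NoRootlessTree

open Complex

/-- `T` belongs to `SL₂(ℕ₀)`: nonnegative integer entries (built into the type) and determinant one. -/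
def InSL2N (T : Matrix (Fin 2) (Fin 2) ℕ) : Prop :=
  (T 0 0 : ℤ) * T 1 1 - T 0 1 * T 1 0 = 1

/-- The action `T (z) = (a z + b) / (c z + d)`. -/
noncomputable def act (T : Matrix (Fin 2) (Fin 2) ℕ) (z : ℂ) : ℂ :=
  ((T 0 0 : ℂ) * z + (T 0 1 : ℂ)) / ((T 1 0 : ℂ) * z + (T 1 1 : ℂ))

/-- `D₀ = {x + y i ∈ K : x > 0, y > 0}`. -/
def D₀ (K : Subfield ℂ) : Set ℂ := {z | z ∈ K ∧ 0 < z.re ∧ 0 < z.im}

/-- `(L, R)` is a left-right pair: non-identity matrices in `SL₂(ℕ₀)` such that the images of `D₀` under `L` and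
`R` are disjoint. -/
structure LeftRightPair (K : Subfield ℂ) (L R : Matrix (Fin 2) (Fin 2) ℕ) : Prop where
  left_mem : InSL2N L
  right_mem : InSL2N R
  left_ne : L ≠ 1
  right_ne : R ≠ 1
  disjoint : act L '' D₀ K ∩ act R '' D₀ K = ∅

/-- The edges `z → L (z)` and `z → R (z)` of the directed graph `F(L, R)`, whose vertices are the elements of `D₀`:
`z` is a parent of `w`. -/
def Parent (K : Subfield ℂ) (L R : Matrix (Fin 2) (Fin 2) ℕ) (z w : D₀ K) : Prop :=
  (w : ℂ) = act L z ∨ (w : ℂ) = act R z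

/-- An orphan is a vertex without a parent. -/
def Orphan (K : Subfield ℂ) (L R : Matrix (Fin 2) (Fin 2) ℕ) (w : D₀ K) : Prop :=
  ∀ z : D₀ K, ¬ Parent K L R z w

/-- The undirected graph underlying `F(L, R)`. -/
def forest (K : Subfield ℂ) (L R : Matrix (Fin 2) (Fin 2) ℕ) : SimpleGraph (D₀ K) :=
  SimpleGraph.fromRel (Parent K L R)

/-- A component of `F(L, R)` is rootless if it contains no orphan. -/
def Rootless (K : Subfield ℂ) (L R : Matrix (Fin 2) (Fin 2) ℕ)
    (C : (forest K L R).ConnectedComponent) : Prop :=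
  ∀ w : D₀ K, (forest K L R).connectedComponentMk w = C → ¬ Orphan K L R w

/-- the denominator does not vanish on the open first quadrant -/
theorem den_ne {T : Matrix (Fin 2) (Fin 2) ℕ} (hT : InSL2N T) {z : ℂ} (hz : 0 < z.re) :
    (T 1 0 : ℂ) * z + (T 1 1 : ℂ) ≠ 0 := by
  intro h
  have h1 := congrArg Complex.re h
  simp at h1
  have hd : 1 ≤ T 1 1 := by
    rcases Nat.eq_zero_or_pos (T 1 1) with h0 | h0
    · unfold InSL2N at hT
      rw [h0] at hT
      have : (0 : ℤ) ≤ (T 0 1 : ℤ) * T 1 0 := by positivity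
      push_cast at hT
      linarith
    · exact h0
  have hd' : (1 : ℝ) ≤ T 1 1 := by exact_mod_cast hd
  have : (0 : ℝ) ≤ (T 1 0 : ℝ) * z.re := by positivity
  linarith

/-- the diagonal entries of a matrix in `SL₂(ℕ₀)` are positive -/
theorem diag_pos {T : Matrix (Fin 2) (Fin 2) ℕ} (hT : InSL2N T) : 1 ≤ T 0 0 ∧ 1 ≤ T 1 1 := by
  unfold InSL2N at hT
  have h0 : (0 : ℤ) ≤ (T 0 1 : ℤ) * T 1 0 := by positivity
  constructor
  · rcases Nat.eq_zero_or_pos (T 0 0) with h | h
    · rw [h] at hT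
      push_cast at hT
      linarith
    · exact h
  · rcases Nat.eq_zero_or_pos (T 1 1) with h | h
    · rw [h] at hT
      push_cast at hT
      linarith
    · exact h

/-- a matrix in `SL₂(ℕ₀)` which is not the identity has a positive entry outside the diagonal -/
theorem off_pos {T : Matrix (Fin 2) (Fin 2) ℕ} (hT : InSL2N T) (hne : T ≠ 1) : 1 ≤ T 0 1 + T 1 0 := by
  by_contra h
  have h1 : T 0 1 = 0 := by omega
  have h2 : T 1 0 = 0 := by omega
  unfold InSL2N at hT
  rw [h1, h2] at hT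
  have h3 : T 0 0 * T 1 1 = 1 := by
    have : ((T 0 0 * T 1 1 : ℕ) : ℤ) = 1 := by push_cast; push_cast at hT; linarith
    exact_mod_cast this
  have h4 := Nat.eq_one_of_mul_eq_one_right h3
  have h5 := Nat.eq_one_of_mul_eq_one_left h3
  apply hne
  ext i j
  fin_cases i <;> fin_cases j <;> simp [h1, h2, h4, h5]

/-- the product of two matrices in `SL₂(ℕ₀)` -/
theorem mul_mem {S T : Matrix (Fin 2) (Fin 2) ℕ} (hS : InSL2N S) (hT : InSL2N T) : InSL2N (S * T) := by
  unfold InSL2N at *
  simp only [Matrix.mul_apply, Fin.sum_univ_two]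
  push_cast
  linear_combination ((T 0 0 : ℤ) * T 1 1 - T 0 1 * T 1 0) * hS + hT

/-- the action is compatible with products -/
theorem act_mul {S T : Matrix (Fin 2) (Fin 2) ℕ} (hS : InSL2N S) (hT : InSL2N T) {z : ℂ}
    (hz : 0 < z.re) (hz' : 0 < (act T z).re) : act (S * T) z = act S (act T z) := by
  have h1 := den_ne hT hz
  have h2 := den_ne hS hz'
  have h3 := den_ne (mul_mem hS hT) hz
  have h4 : (T 1 0 : ℂ) * z + (T 1 1 : ℂ) ≠ 0 := h1
  have key : act T z * ((T 1 0 : ℂ) * z + (T 1 1 : ℂ)) = (T 0 0 : ℂ) * z + (T 0 1 : ℂ) := by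
    unfold act
    rw [div_mul_cancel₀ _ h4]
  unfold act at h2 ⊢
  rw [div_eq_div_iff h3 h2]
  simp only [Matrix.mul_apply, Fin.sum_univ_two]
  push_cast
  field_simp
  ring

/-- the imaginary part: `Im T(w) * |c w + d|² = Im w` -/
theorem im_act {T : Matrix (Fin 2) (Fin 2) ℕ} (hT : InSL2N T) {w : ℂ} (hw : 0 < w.re) :
    (act T w).im * (((T 1 0 : ℝ) * w.re + T 1 1) ^ 2 + ((T 1 0 : ℝ) * w.im) ^ 2) = w.im := by
  have h1 := den_ne hT hw
  have h2 : ((T 1 0 : ℝ) * w.re + T 1 1) ^ 2 + ((T 1 0 : ℝ) * w.im) ^ 2 =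
      Complex.normSq ((T 1 0 : ℂ) * w + (T 1 1 : ℂ)) := by
    rw [Complex.normSq_apply]
    simp
    ring
  have h3 : (Complex.normSq ((T 1 0 : ℂ) * w + (T 1 1 : ℂ))) ≠ 0 := by
    rwa [Ne, Complex.normSq_eq_zero]
  have h4 : ((T 0 0 : ℝ) * T 1 1 - T 0 1 * T 1 0) = 1 := by
    unfold InSL2N at hT
    exact_mod_cast hT
  rw [h2]
  unfold act
  rw [Complex.div_im, sub_mul, div_mul_cancel₀ _ h3, div_mul_cancel₀ _ h3]
  simp
  linear_combination w.im * h4

/-- the bound `2 c d Im T(w) ≤ 1` -/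
theorem im_bound {T : Matrix (Fin 2) (Fin 2) ℕ} (hT : InSL2N T) {w : ℂ} (hw : 0 < w.re) (hw' : 0 < w.im)
    (hz : 0 < (act T w).im) : 2 * (T 1 0 : ℝ) * T 1 1 * (act T w).im ≤ 1 := by
  have h := im_act hT hw
  set c : ℝ := (T 1 0 : ℝ)
  set d : ℝ := (T 1 1 : ℝ)
  have hc : 0 ≤ c := by positivity
  have hd : 0 ≤ d := by positivity
  have h1 : 2 * c * d * w.im ≤ (c * w.re + d) ^ 2 + (c * w.im) ^ 2 := by
    have h2 : 0 ≤ (d - c * w.im) ^ 2 := sq_nonneg _
    have h3 : 0 ≤ c * w.re := by positivity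
    nlinarith [mul_nonneg h3 hd, mul_nonneg h3 h3]
  have h2 : (act T w).im * (2 * c * d * w.im) ≤ w.im := by
    calc (act T w).im * (2 * c * d * w.im) ≤ (act T w).im * ((c * w.re + d) ^ 2 + (c * w.im) ^ 2) :=
          mul_le_mul_of_nonneg_left h1 hz.le
      _ = w.im := h
  have h3 : w.im * (2 * c * d * (act T w).im) ≤ w.im * 1 := by linarith
  exact le_of_mul_le_mul_left h3 hw'

/-- `w` is an ancestor of `z`, `n` generations back -/
def Anc (K : Subfield ℂ) (L R : Matrix (Fin 2) (Fin 2) ℕ) : ℕ → D₀ K → D₀ K → Prop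
  | 0, z, w => w = z
  | n + 1, z, w => ∃ w' : D₀ K, Anc K L R n z w' ∧ Parent K L R w w'

/-- the word which leads from an ancestor to `z`, with the growth of its second row -/
theorem word {K : Subfield ℂ} {L R : Matrix (Fin 2) (Fin 2) ℕ} (h : LeftRightPair K L R) (z : D₀ K)
    (k : ℕ) (hk : (z : ℂ).re ≤ k) (n : ℕ) : ∀ w : D₀ K, Anc K L R n z w →
    ∃ T : Matrix (Fin 2) (Fin 2) ℕ, InSL2N T ∧ (z : ℂ) = act T w ∧
      ((T 1 0 = 0 ∧ T 0 0 = 1 ∧ T 1 1 = 1 ∧ n ≤ T 0 1 ∧ n < k) ∨ (1 ≤ T 1 0 ∧ n ≤ T 1 0 + T 1 1 + k)) := by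
  induction n with
  | zero =>
    intro w hw
    have hw' : w = z := hw
    subst hw'
    refine ⟨1, ?_, ?_, Or.inl ⟨by simp, by simp, by simp, by simp, ?_⟩⟩
    · simp [InSL2N]
    · simp [act]
    · have h1 : (0 : ℝ) < k := lt_of_lt_of_le w.2.2.1 hk
      exact_mod_cast h1
  | succ n ih =>
    rintro w ⟨w', hw', hp⟩
    obtain ⟨T, hT, hz, hcase⟩ := ih w' hw'
    have hM : ∃ M : Matrix (Fin 2) (Fin 2) ℕ, InSL2N M ∧ M ≠ 1 ∧ (w' : ℂ) = act M w := by
      rcases hp with hp | hp
      · exact ⟨L, h.left_mem, h.left_ne, hp⟩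
      · exact ⟨R, h.right_mem, h.right_ne, hp⟩
    obtain ⟨M, hM, hne, hw''⟩ := hM
    have hTM := mul_mem hT hM
    have hzTM : (z : ℂ) = act (T * M) w := by
      rw [act_mul hT hM w.2.2.1 (by rw [← hw'']; exact w'.2.2.1), ← hw'', ← hz]
    have hMd := diag_pos hM
    have hMo := off_pos hM hne
    have hTd := diag_pos hT
    refine ⟨T * M, hTM, hzTM, ?_⟩
    simp only [Matrix.mul_apply, Fin.sum_univ_two] at *
    rcases hcase with ⟨h1, h2, h3, h4, h5⟩ | ⟨h1, h2⟩
    · rw [h1, h2, h3]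
      rcases Nat.eq_zero_or_pos (M 1 0) with h6 | h6
      · left
        have h7 : M 0 0 * M 1 1 = 1 := by
          unfold InSL2N at hM
          rw [h6] at hM
          have : ((M 0 0 * M 1 1 : ℕ) : ℤ) = 1 := by push_cast; push_cast at hM; linarith
          exact_mod_cast this
        have h8 := Nat.eq_one_of_mul_eq_one_right h7
        have h9 := Nat.eq_one_of_mul_eq_one_left h7
        rw [h6, h8, h9]
        have h10 : n + 1 ≤ M 0 1 + T 0 1 := by omega
        refine ⟨by simp, by simp, by simp, by omega, ?_⟩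
        -- the real part
        have h11 : (z : ℂ) = (w : ℂ) + ((M 0 1 + T 0 1 : ℕ) : ℂ) := by
          rw [hzTM]
          unfold act
          simp only [Matrix.mul_apply, Fin.sum_univ_two, h1, h2, h3, h6, h8, h9]
          push_cast
          simp
        have h12 : (z : ℂ).re = (w : ℂ).re + ((M 0 1 + T 0 1 : ℕ) : ℝ) := by
          rw [h11]
          simp
        have h13 : ((n + 1 : ℕ) : ℝ) ≤ ((M 0 1 + T 0 1 : ℕ) : ℝ) := by exact_mod_cast h10
        have h14 := w.2.2.1
        have h15 : ((n + 1 : ℕ) : ℝ) < (k : ℝ) := by linarith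
        exact_mod_cast h15
      · right
        constructor
        · omega
        · omega
    · right
      have e1 : T 1 0 ≤ T 1 0 * M 0 0 := Nat.le_mul_of_pos_right _ hMd.1
      have e2 : T 1 1 ≤ T 1 1 * M 1 1 := Nat.le_mul_of_pos_right _ hMd.2
      constructor
      · omega
      · rcases Nat.eq_zero_or_pos (M 1 0) with h6 | h6
        · have e3 : T 1 0 ≤ T 1 0 * M 0 1 := Nat.le_mul_of_pos_right _ (by omega)
          omega
        · have e3 : T 1 1 ≤ T 1 1 * M 1 0 := Nat.le_mul_of_pos_right _ h6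
          omega

/-- the number of generations before a vertex is bounded -/
theorem anc_bound {K : Subfield ℂ} {L R : Matrix (Fin 2) (Fin 2) ℕ} (h : LeftRightPair K L R) (z : D₀ K) :
    ∃ N : ℕ, ∀ (n : ℕ) (w : D₀ K), Anc K L R n z w → n ≤ N := by
  obtain ⟨k, hk⟩ := exists_nat_ge (z : ℂ).re
  obtain ⟨m, hm⟩ := exists_nat_ge (1 / (2 * (z : ℂ).im))
  refine ⟨m + 1 + k, fun n w hw => ?_⟩
  obtain ⟨T, hT, hz, hcase⟩ := word h z k hk n w hw
  rcases hcase with ⟨-, -, -, -, h5⟩ | ⟨h1, h2⟩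
  · omega
  · have hzim := z.2.2.2
    have hb := im_bound hT w.2.2.1 w.2.2.2 (by rw [← hz]; exact hzim)
    rw [← hz] at hb
    have hd := (diag_pos hT).2
    have h3 : (T 1 0 : ℝ) * T 1 1 ≤ 1 / (2 * (z : ℂ).im) := by
      rw [le_div_iff₀ (by positivity)]
      linarith
    have h4 : ((T 1 0 * T 1 1 : ℕ) : ℝ) ≤ m := by
      push_cast
      linarith
    have h5 : T 1 0 * T 1 1 ≤ m := by exact_mod_cast h4
    have h6 : T 1 0 + T 1 1 ≤ T 1 0 * T 1 1 + 1 := by nlinarith
    omega

/-- an ancestor lies in the same component -/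
theorem reachable_of_anc {K : Subfield ℂ} {L R : Matrix (Fin 2) (Fin 2) ℕ} (z : D₀ K) (n : ℕ) :
    ∀ w : D₀ K, Anc K L R n z w → (forest K L R).Reachable w z := by
  induction n with
  | zero =>
    intro w hw
    have hw' : w = z := hw
    subst hw'
    exact SimpleGraph.Reachable.refl _
  | succ n ih =>
    rintro w ⟨w', hw', hp⟩
    have h1 := ih w' hw'
    by_cases hww : w = w'
    · rw [hww]; exact h1
    · refine SimpleGraph.Reachable.trans (SimpleGraph.Adj.reachable ?_) h1
      rw [forest, SimpleGraph.fromRel_adj]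
      exact ⟨hww, Or.inl hp⟩

/-- **The left-right pairs with a rootless component.** Let `K` be a subfield of the complex numbers which is not
contained in the real numbers. The set of the left-right pairs `(L, R)` in `SL₂(ℕ₀)` for which the forest `F(L, R)`
has a rootless component is empty. -/
theorem result (K : Subfield ℂ) (_hK : ∃ z ∈ K, z.im ≠ 0) :
    {p : Matrix (Fin 2) (Fin 2) ℕ × Matrix (Fin 2) (Fin 2) ℕ | LeftRightPair K p.1 p.2 ∧
      ∃ C : (forest K p.1 p.2).ConnectedComponent, Rootless K p.1 p.2 C} = ∅ := by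
  ext ⟨L, R⟩
  simp only [Set.mem_ofPred_eq, Set.mem_empty_iff_false, iff_false, not_and, not_exists]
  intro h C hC
  obtain ⟨z, rfl⟩ := C.exists_rep
  obtain ⟨N, hN⟩ := anc_bound h z
  have hall : ∀ n : ℕ, ∃ w : D₀ K, Anc K L R n z w := by
    intro n
    induction n with
    | zero => exact ⟨z, rfl⟩
    | succ n ih =>
      obtain ⟨w, hw⟩ := ih
      have h1 : (forest K L R).connectedComponentMk w = (forest K L R).connectedComponentMk z :=
        SimpleGraph.ConnectedComponent.sound (reachable_of_anc z n w hw)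
      have h2 := hC w h1
      unfold Orphan at h2
      push Not at h2
      obtain ⟨v, hv⟩ := h2
      exact ⟨v, w, hw, hv⟩
  obtain ⟨w, hw⟩ := hall (N + 1)
  have := hN (N + 1) w hw
  omega

end Pool.Agent.Results.MP_b00f03_nt.NoRootlessTree
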